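import Pool.Agent.Lib_helper27.MS.Defs

/-!
# The well-order with the given cardinals
-/

namespace Pool.Agent.MS

open Pool.Agent.Lib_helper27 Cardinal Ordinal

theorem exists_seg (μ : ℕ → Cardinal.{0}) (hμ : StrictMono μ) :
    ∃ (Ω : Type) (_ : LinearOrder Ω) (_ : WellFoundedLT Ω) (c : ℕ → Ω), StrictMono c ∧
      (∀ x, ∃ n, x < c n) ∧ (∀ n, #(Lv c n) = μ n) ∧
      ∀ n x, x < c n → #{y : Ω // y < x} < μ n := by
  have hbd : BddAbove (Set.range μ) := Cardinal.bddAbove_of_small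
  have hlt : ∀ n, μ n < ⨆ n, μ n := fun n =>
    (hμ (Nat.lt_succ_self n)).trans_le (le_ciSup hbd (n + 1))
  let o : Ordinal.{0} := (⨆ n, μ n).ord
  have ho : ∀ n, (μ n).ord < type (fun x y : o.ToType => x < y) := fun n => by
    rw [type_toType]
    exact ord_lt_ord.2 (hlt n)
  let c : ℕ → o.ToType := fun n => enum (fun x y : o.ToType => x < y) ⟨(μ n).ord, ho n⟩
  have hc : ∀ n, typein (fun x y : o.ToType => x < y) (c n) = (μ n).ord := fun n =>
    typein_enum _ (ho n)
  have hlt' : ∀ x y : o.ToType, x < y ↔ typein (fun x y : o.ToType => x < y) x <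
      typein (fun x y : o.ToType => x < y) y := fun x y =>
    (typein_lt_typein (fun x y : o.ToType => x < y)).symm
  have hcard : ∀ x : o.ToType, #{y : o.ToType // y < x} =
      (typein (fun x y : o.ToType => x < y) x).card := fun x => rfl
  refine ⟨o.ToType, inferInstance, inferInstance, c, ?_, ?_, ?_, ?_⟩
  · intro m n h
    rw [hlt', hc, hc]
    exact ord_lt_ord.2 (hμ h)
  · intro x
    have h1 : typein (fun x y : o.ToType => x < y) x < (⨆ n, μ n).ord := by
      have := typein_lt_type (fun x y : o.ToType => x < y) x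
      rwa [type_toType] at this
    rw [lt_ord] at h1
    obtain ⟨n, hn⟩ := exists_lt_of_lt_ciSup h1
    refine ⟨n, ?_⟩
    rw [hlt', hc, lt_ord]
    exact hn
  · intro n
    rw [hcard, hc, card_ord]
  · intro n x hx
    rw [hlt', hc, lt_ord] at hx
    rw [hcard]
    exact hx

/-- the sequence of cardinals: `ℵ_n` for `n ≤ l + 1`, then the given ones -/
noncomputable def seqC (l : ℕ) (κ : ℕ → Cardinal.{0}) (n : ℕ) : Cardinal.{0} :=
  if n ≤ l + 1 then ℵ_ (n : Ordinal.{0}) else κ (n - (l + 2))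

theorem seqC_le {l : ℕ} {κ : ℕ → Cardinal.{0}} {n : ℕ} (h : n ≤ l + 1) :
    seqC l κ n = ℵ_ (n : Ordinal.{0}) := if_pos h

theorem seqC_gt {l : ℕ} {κ : ℕ → Cardinal.{0}} (n : ℕ) : seqC l κ (n + (l + 2)) = κ n := by
  rw [seqC, if_neg (by omega), Nat.add_sub_cancel]

theorem aleph_lt_inacc {μ : Cardinal.{0}} (h : μ.IsInaccessible) (n : ℕ) :
    ℵ_ (n : Ordinal.{0}) < μ := by
  induction n with
  | zero => simpa using h.aleph0_lt
  | succ n ih =>
    have h1 : ℵ_ ((n + 1 : ℕ) : Ordinal.{0}) = Order.succ (ℵ_ (n : Ordinal.{0})) := by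
      rw [Cardinal.succ_aleph]
      simp
    rw [h1]
    exact (Order.succ_le_of_lt (Cardinal.cantor _)).trans_lt (h.isStrongPrelimit ih)

theorem seqC_mono {l : ℕ} {κ : ℕ → Cardinal.{0}} (hκ : StrictMono κ)
    (hi : ∀ n, (κ n).IsInaccessible) : StrictMono (seqC l κ) := by
  refine strictMono_nat_of_lt_succ fun n => ?_
  by_cases h : n + 1 ≤ l + 1
  · rw [seqC_le h, seqC_le (by omega)]
    rw [aleph_lt_aleph]
    simp
  · by_cases h' : n ≤ l + 1
    · rw [seqC_le h']
      obtain rfl : n = l + 1 := by omega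
      have : seqC l κ (l + 1 + 1) = κ 0 := by
        have := seqC_gt (l := l) (κ := κ) 0
        rwa [Nat.zero_add] at this
      rw [this]
      exact aleph_lt_inacc (hi 0) _
    · obtain ⟨m, rfl⟩ : ∃ m, n = m + (l + 2) := ⟨n - (l + 2), by omega⟩
      rw [show m + (l + 2) + 1 = (m + 1) + (l + 2) by omega, seqC_gt, seqC_gt]
      exact hκ (Nat.lt_succ_self m)

theorem exists_cards (l : ℕ) {κ : ℕ → Cardinal.{0}} (hκ : StrictMono κ)
    (hi : ∀ n, (κ n).IsInaccessible) :
    ∃ (Ω : Type) (_ : LinearOrder Ω) (_ : WellFoundedLT Ω) (c : ℕ → Ω), Cards c l ∧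
      ∀ n, #(Lv c (n + (l + 2))) = κ n := by
  obtain ⟨Ω, i1, i2, c, h1, h2, h3, h4⟩ := exists_seg (seqC l κ) (seqC_mono hκ hi)
  refine ⟨Ω, i1, i2, c, ⟨h1, h2, ?_, ?_, ?_, ?_, ?_⟩, fun n => ?_⟩
  · rw [h3, seqC_le (Nat.zero_le _)]
    simp
  · intro n x hx
    rw [h3]
    exact h4 n x hx
  · intro n
    rw [h3]
    by_cases h : n ≤ l + 1
    · rw [seqC_le h]
      rcases n with _ | n
      · simpa using isRegular_aleph0
      · have := isRegular_aleph_succ (n : Ordinal.{0})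
        simpa using this
    · obtain ⟨m, rfl⟩ : ∃ m, n = m + (l + 2) := ⟨n - (l + 2), by omega⟩
      rw [seqC_gt]
      exact (hi m).isRegular
  · intro n hn
    rw [h3, h3, seqC_le (by omega), seqC_le (by omega), Cardinal.succ_aleph]
    simp
  · intro n hn μ hμ
    rw [h3] at hμ ⊢
    obtain ⟨m, rfl⟩ : ∃ m, n = m + (l + 2) := ⟨n - (l + 2), by omega⟩
    rw [seqC_gt] at hμ ⊢
    exact (hi m).isStrongPrelimit hμ
  · rw [h3, seqC_gt]

end Pool.Agent.MS
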