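import Pool.Agent.Lib_helper27.MS.FN

/-!
# Mutual stationarity in forcing extensions: interface

`P` is the poset; `Lv c n` is the cardinal `κ_n` (the points of the well-order `Ω` below `c n`);
`En c j n` is the set of increasing sequences of length `κ_j` in `κ_n`.
-/

namespace Pool.Agent.MS

open Pool.Agent.Lib_helper27 Cardinal

/-- the points below `c n` -/
abbrev Lv {Ω : Type} [LinearOrder Ω] (c : ℕ → Ω) (n : ℕ) : Type := {x : Ω // x < c n}

/-- increasing sequences of length `κ_j` in `κ_n` -/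
abbrev En {Ω : Type} [LinearOrder Ω] (c : ℕ → Ω) (j n : ℕ) : Type :=
  {e : Lv c j → Lv c n // StrictMono e}

/-- The cardinals: `κ_0 = ω`, `κ_(j+1) = κ_j⁺` for `j ≤ l`, `κ_n` is strongly inaccessible for
`n ≥ l + 2`. -/
structure Cards {Ω : Type} [LinearOrder Ω] [WellFoundedLT Ω] (c : ℕ → Ω) (l : ℕ) : Prop where
  mono : StrictMono c
  cof : ∀ x : Ω, ∃ n, x < c n
  zero : #(Lv c 0) = ℵ₀
  init : ∀ n, ∀ x : Ω, x < c n → #{y : Ω // y < x} < #(Lv c n)
  reg : ∀ n, (#(Lv c n)).IsRegular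
  succ : ∀ n ≤ l, #(Lv c (n + 1)) = Order.succ #(Lv c n)
  inacc : ∀ n, l + 2 ≤ n → ∀ μ : Cardinal.{0}, μ < #(Lv c n) → 2 ^ μ < #(Lv c n)

/-- A system (a name for a closed poset adding a filter on `T`) over `P`: codes `C`, `good p h`
(`p` forces that `h` is a condition), `le p h' h` (`p` forces `h' ≤ h`), `S p h t` (`p` forces that
`t` is in the set coded by `h`). -/
structure Sys (P : Type) [Preorder P] (T : Type) where
  C : Type
  good : P → C → Prop
  le : P → C → C → Prop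
  S : P → C → T → Prop
  good_mono : ∀ {p q h}, q ≤ p → good p h → good q h
  good_reg : ∀ {p h}, Loc p (fun q => good q h) → good p h
  le_mono : ∀ {p q h h'}, q ≤ p → le p h' h → le q h' h
  le_reg : ∀ {p h h'}, Loc p (fun q => le q h' h) → le p h' h
  le_refl : ∀ p h, le p h h
  le_trans : ∀ {p h h' h''}, le p h'' h' → le p h' h → le p h'' h
  S_mono : ∀ {p q h t}, q ≤ p → S p h t → S q h t
  S_reg : ∀ {p h t}, Loc p (fun q => S q h t) → S p h t
  S_le : ∀ {p h h' t}, le p h' h → S p h' t → S p h t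
  ne : ∀ {p h}, good p h → ∃ q ≤ p, ∃ t, S q h t
  inh : ∃ h, ∀ p, good p h

variable {P : Type} [Preorder P] {T : Type}

/-- Descending sequences of length at most `θ` of codes have lower bounds. -/
def Sys.Closed (S : Sys P T) (θ : Cardinal.{0}) : Prop :=
  ∀ (I : Type) [LinearOrder I] [WellFoundedLT I], #I ≤ θ → ∀ (p : P) (h : I → S.C),
    (∀ i, S.good p (h i)) → (∀ i i', i ≤ i' → S.le p (h i') (h i)) →
    ∃ k, S.good p k ∧ ∀ i, S.le p k (h i)

/-- Random functions `G : U × T → Z` with `#U ≤ κ` and `#Z ≤ μ` are decided: after shrinking the code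
`G (u, t)` does not depend on `t`. -/
def Sys.Dec (S : Sys P T) (κ μ : Cardinal.{0}) : Prop :=
  ∀ (U Z : Type), #U ≤ κ → #Z ≤ μ → ∀ (G : FN P (U × T) Z) (p : P) (h : S.C), S.good p h →
    (∀ q ≤ p, ∀ t, S.S q h t → ∀ u, Loc q fun r => ∃ z, G.r r (u, t) z) →
    ∃ q ≤ p, ∃ k, S.good q k ∧ S.le q k h ∧ ∃ g : FN P U Z, g.Tot q ∧
      ∀ r ≤ q, ∀ t, S.S r k t → ∀ u z, g.r r u z → G.r r (u, t) z

/-- For every random function `H : κ_n → κ_n` the code can be shrunk so that `H (t i) < t i'` for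
`i < i'`. -/
def Sys.Close {Ω : Type} [LinearOrder Ω] {c : ℕ → Ω} {j n : ℕ} (S : Sys P (En c j n)) : Prop :=
  ∀ (H : FN P (Lv c n) (Lv c n)) (p : P), H.Tot p → ∀ h, S.good p h →
    ∃ q ≤ p, ∃ k, S.good q k ∧ S.le q k h ∧
      ∀ r ≤ q, ∀ t, S.S r k t → ∀ i i', i < i' → ∀ v, H.r r (t.1 i) v → v < t.1 i'

/-- Random functions from a set of size less than `κ_m` to `κ_m` are bounded. -/
def Bdd (P : Type) [Preorder P] {Ω : Type} [LinearOrder Ω] (c : ℕ → Ω) (m : ℕ) : Prop :=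
  ∀ D : Type, #D < #(Lv c m) → ∀ (p : P) (g : FN P D (Lv c m)), g.Tot p →
    ∃ q ≤ p, ∃ x : Lv c m, ∀ r ≤ q, ∀ d v, g.r r d v → v ≤ x

/-- Every ordinal below `κ_(n+1)` is collapsed to `κ_n`. -/
def Coll (P : Type) [Preorder P] {Ω : Type} [LinearOrder Ω] (c : ℕ → Ω) (n : ℕ) : Prop :=
  ∀ x : Ω, c n ≤ x → x < c (n + 1) → ∃ F : FN P (Lv c n) {y : Ω // y < x},
    (∀ p, F.Tot p) ∧ ∀ p y, Loc p (fun q => ∃ d, F.r q d y)

/-- The hypotheses on the poset. -/
structure Pkg (P : Type) [Preorder P] {Ω : Type} [LinearOrder Ω] [WellFoundedLT Ω] (c : ℕ → Ω)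
    (l : ℕ) : Prop where
  cl : Cl P #(Lv c l)
  bdd : ∀ m, Bdd P c m
  coll : ∀ n, l + 1 ≤ n → Coll P c n
  sys : ∀ n, l + 2 ≤ n → ∀ j ≤ l, ∃ S : Sys P (En c j n), S.Closed #(Lv c l) ∧
    S.Dec #(Lv c (n - 2)) #(Lv c (n - 1)) ∧ S.Close

/-- The conclusion of the core: below every condition there are a condition `q` and a set `N` of
ground model ordinals such that `q` forces that `N` is closed under the functions and
`cf (sup (N ∩ κ_m)) = κ_(f m)` for all `m > l`. -/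
def MutSt (P : Type) [Preorder P] {Ω : Type} [LinearOrder Ω] (c : ℕ → Ω) (l : ℕ) : Prop :=
  ∀ f : ℕ → ℕ, (∀ n, f n ≤ l) → ∀ (J : Type) [Countable J] (F : J → FN P (List Ω) Ω) (p : P),
    (∀ j, (F j).Tot p) → ∃ q ≤ p, ∃ N : Set Ω,
      (∀ j, ∀ L : List Ω, (∀ x ∈ L, x ∈ N) → ∃ y ∈ N, (F j).r q L y) ∧
      ∀ m, l < m → ∃ s : Lv c (f m) → Lv c m, StrictMono s ∧ (∀ i, (s i).1 ∈ N) ∧
        ∀ x ∈ N, x < c m → ∃ i, x < (s i).1

end Pool.Agent.MS
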