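import Pool.Agent.Lib_helper27.Calc
import Mathlib

/-!
# Random functions over a poset, closure and distributivity
-/

namespace Pool.Agent.MS

open Pool.Agent.Lib_helper27 Cardinal

/-- Descending sequences of length at most `θ` have lower bounds. -/
def Cl (S : Type) [Preorder S] (θ : Cardinal.{0}) : Prop :=
  ∀ (I : Type) [LinearOrder I] [WellFoundedLT I], #I ≤ θ → ∀ f : I → S, Antitone f →
    ∃ q, ∀ i, q ≤ f i

/-- A `θ`-closed preorder is `θ`-distributive. -/
theorem Cl.distr {S : Type} [Preorder S] {θ : Cardinal.{0}} (hθ : Cl S θ) {I : Type} (hI : #I ≤ θ)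
    (D : I → Set S) (p : S) (h1 : ∀ i, ∀ q ≤ p, ∃ r ≤ q, r ∈ D i)
    (h2 : ∀ i q r, r ≤ q → q ∈ D i → r ∈ D i) : ∃ q ≤ p, ∀ i, q ∈ D i := by
  classical
  obtain ⟨lo, wo⟩ := exists_wellFoundedLT I
  -- the recursion
  let good : (x : I) → ((y : I) → y < x → S) → S := fun x f =>
    if h : ∃ q ≤ p, (∀ y hy, q ≤ f y hy) ∧ q ∈ D x then h.choose else p
  let g : I → S := fun x => WellFounded.fix (wellFounded_lt (α := I)) good x
  have hg : ∀ x, g x = good x fun y _ => g y := fun x => WellFounded.fix_eq _ _ _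
  have key : ∀ x, g x ≤ p ∧ (∀ y < x, g x ≤ g y) ∧ g x ∈ D x := by
    intro x
    induction x using WellFoundedLT.induction with
    | ind x ih =>
      have hex : ∃ q ≤ p, (∀ y, y < x → q ≤ g y) ∧ q ∈ D x := by
        by_cases hne : ∃ y, y < x
        · obtain ⟨q, hq⟩ := hθ {y : I // y < x} ((mk_subtype_le _).trans hI) (fun y => g y.1) (by
            intro y z hyz
            rcases eq_or_lt_of_le hyz with h | h
            · rw [h]
            · exact (ih z.1 z.2).2.1 y.1 h)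
          obtain ⟨y, hy⟩ := hne
          have hqp : q ≤ p := (hq ⟨y, hy⟩).trans (ih y hy).1
          obtain ⟨r, hr, hr'⟩ := h1 x q hqp
          exact ⟨r, hr.trans hqp, fun z hz => hr.trans (hq ⟨z, hz⟩), hr'⟩
        · obtain ⟨r, hr, hr'⟩ := h1 x p le_rfl
          exact ⟨r, hr, fun y hy => (hne ⟨y, hy⟩).elim, hr'⟩
      have hx : g x = hex.choose := by
        rw [hg]
        exact dif_pos hex
      rw [hx]
      exact hex.choose_spec
  by_cases hne : Nonempty I
  · obtain ⟨q, hq⟩ := hθ I hI g (by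
      intro y z hyz
      rcases eq_or_lt_of_le hyz with h | h
      · rw [h]
      · exact (key z).2.1 y h)
    exact ⟨q, (hq hne.some).trans (key hne.some).1, fun i => h2 i _ _ (hq i) (key i).2.2⟩
  · exact ⟨p, le_rfl, fun i => (hne ⟨i⟩).elim⟩

/-- A random partial function from `D` to `Z`: `r p d z` means that `p` forces the value at `d` to be
defined and equal to `z`. -/
structure FN (P : Type) [Preorder P] (D Z : Type) where
  /-- forced values -/
  r : P → D → Z → Prop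
  uniq : ∀ {p d z z'}, r p d z → r p d z' → z = z'
  mono : ∀ {p q d z}, q ≤ p → r p d z → r q d z
  reg : ∀ {p d z}, Loc p (fun q => r q d z) → r p d z

namespace FN

variable {P : Type} [Preorder P] {D D' Z W : Type}

/-- totality below `p` -/
def Tot (F : FN P D Z) (p : P) : Prop := ∀ d, Loc p fun q => ∃ z, F.r q d z

theorem Tot.mono {F : FN P D Z} {p q : P} (h : F.Tot p) (hq : q ≤ p) : F.Tot q :=
  fun d => (h d).mono hq

theorem uniq' (F : FN P D Z) {p q r : P} {d : D} {z z' : Z} (hp : r ≤ p) (hq : r ≤ q)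
    (h : F.r p d z) (h' : F.r q d z') : z = z' := F.uniq (F.mono hp h) (F.mono hq h')

end FN

/-- The mixing lemma. -/
theorem exists_mix {P : Type} [Preorder P] {D Z : Type} (Φ : P → D → Z → Prop)
    (hΦ : ∀ p q d z, q ≤ p → Φ p d z → Φ q d z) :
    ∃ F : FN P D Z, (∀ p d z, F.r p d z → Loc p fun q => Φ q d z) ∧
      ∀ p d, (∃ z, Φ p d z) → ∃ q ≤ p, ∃ z, F.r q d z := by
  classical
  -- maximal antichains
  have h1 : ∀ d, ∃ W : Set P, (∀ w ∈ W, ∃ z, Φ w d z) ∧
      (∀ w ∈ W, ∀ w' ∈ W, (∃ r, r ≤ w ∧ r ≤ w') → w = w') ∧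
      ∀ p, (∃ z, Φ p d z) → ∃ w ∈ W, ∃ r, r ≤ p ∧ r ≤ w := by
    intro d
    let 𝒜 : Set (Set P) := {W | (∀ w ∈ W, ∃ z, Φ w d z) ∧
      ∀ w ∈ W, ∀ w' ∈ W, (∃ r, r ≤ w ∧ r ≤ w') → w = w'}
    obtain ⟨W, hW⟩ := zorn_subset 𝒜 (by
      intro c hc hchain
      refine ⟨⋃₀ c, ⟨?_, ?_⟩, fun s hs => Set.subset_sUnion_of_mem hs⟩
      · rintro w ⟨s, hs, hw⟩
        exact (hc hs).1 w hw
      · rintro w ⟨s, hs, hw⟩ w' ⟨s', hs', hw'⟩ hr
        rcases hchain.total hs hs' with h | h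
        · exact (hc hs').2 w (h hw) w' hw' hr
        · exact (hc hs).2 w hw w' (h hw') hr)
    refine ⟨W, hW.prop.1, hW.prop.2, fun p hp => ?_⟩
    by_contra hcon
    push Not at hcon
    have h2 : insert p W ∈ 𝒜 := by
      refine ⟨?_, ?_⟩
      · rintro w (rfl | hw)
        · exact hp
        · exact hW.prop.1 w hw
      · rintro w (rfl | hw) w' (rfl | hw') ⟨r, hr, hr'⟩
        · rfl
        · exact (hcon w' hw' r hr hr').elim
        · exact (hcon w hw r hr' hr).elim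
        · exact hW.prop.2 w hw w' hw' ⟨r, hr, hr'⟩
    have h3 : p ∈ W := hW.le_of_ge h2 (Set.subset_insert p W) (Set.mem_insert p W)
    exact hcon p h3 p le_rfl le_rfl
  choose W hW1 hW2 hW3 using h1
  choose z hz using hW1
  refine ⟨⟨fun p d v => Loc p fun q => ∃ w, ∃ hw : w ∈ W d, q ≤ w ∧ z d w hw = v, ?_, ?_, ?_⟩, ?_, ?_⟩
  · intro p d v v' h h'
    obtain ⟨q, hq, w, hw, hqw, rfl⟩ := h.exists
    obtain ⟨q', hq', w', hw', hqw', rfl⟩ := h' q hq
    have := hW2 d w hw w' hw' ⟨q', hq'.trans hqw, hqw'⟩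
    subst this
    rfl
  · intro p q d v hq h
    exact h.mono hq
  · intro p d v h
    exact h.bind fun q _ h => h
  · intro p d v h
    refine h.imp ?_
    rintro q _ ⟨w, hw, hqw, rfl⟩
    exact hΦ _ _ _ _ hqw (hz d w hw)
  · intro p d hp
    obtain ⟨w, hw, r, hr, hr'⟩ := hW3 d p hp
    exact ⟨r, hr, z d w hw, Loc.pure fun q hq => ⟨w, hw, hq.trans hr', rfl⟩⟩

end Pool.Agent.MS
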