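import Mathlib

/-!
# Supercompact cardinals are inaccessible
-/

namespace Pool.Agent.MS

open Cardinal

/-- `μ` is a supercompact cardinal (of the universe `Type`): `μ` is uncountable and for every `Λ`
there is a fine normal `μ`-complete ultrafilter on the set of subsets of `Λ` of cardinality less
than `μ` -/
def SuperC (μ : Cardinal.{0}) : Prop :=
  ℵ₀ < μ ∧ ∀ Λ : Type, ∃ U : Ultrafilter (Set Λ),
    (∀ (I : Type) (B : I → Set (Set Λ)), #I < μ → (∀ i, B i ∈ U) → (⋂ i, B i) ∈ U) ∧
    (∀ x : Λ, {y : Set Λ | x ∈ y} ∈ U) ∧ {y : Set Λ | #y < μ} ∈ U ∧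
    ∀ f : Set Λ → Λ, {y : Set Λ | f y ∈ y} ∈ U → ∃ x, {y : Set Λ | f y = x} ∈ U

theorem SuperC.inaccessible {μ : Cardinal.{0}} (h : SuperC μ) : μ.IsInaccessible := by
  classical
  obtain ⟨h0, h1⟩ := h
  obtain ⟨U, hcomp, hfine, hsm, -⟩ := h1 μ.ord.ToType
  have hΛ : #μ.ord.ToType = μ := by simp
  -- no small union is everything
  have hreg : ∀ (I : Type) (A : I → Set μ.ord.ToType), #I < μ → (∀ i, #(A i) < μ) →
      (⋃ i, A i) ≠ Set.univ := by
    intro I A hI hA hun
    have h2 : ∀ i, {y : Set μ.ord.ToType | A i ⊆ y} ∈ U := by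
      intro i
      have h3 := hcomp (A i) (fun a => {y : Set μ.ord.ToType | a.1 ∈ y}) (hA i) fun a => hfine a.1
      filter_upwards [h3] with y hy a ha
      exact Set.mem_iInter.1 hy ⟨a, ha⟩
    have h4 := hcomp I _ hI h2
    obtain ⟨y, hy, hy'⟩ := Ultrafilter.nonempty_of_mem (Filter.inter_mem h4 hsm)
    have h5 : y = Set.univ := by
      rw [Set.eq_univ_iff_forall]
      intro x
      have hx : x ∈ ⋃ i, A i := by
        rw [hun]
        exact Set.mem_univ x
      obtain ⟨i, hi⟩ := Set.mem_iUnion.1 hx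
      exact Set.mem_iInter.1 hy i hi
    rw [h5] at hy'
    have h6 : #(Set.univ : Set μ.ord.ToType) < μ := hy'
    rw [mk_univ, hΛ] at h6
    exact lt_irrefl _ h6
  refine ⟨h0, ?_, ?_⟩
  · -- regularity
    by_contra hcon
    push Not at hcon
    rw [← Ordinal.cof_toType] at hcon
    obtain ⟨S, hS, hSc⟩ := Order.exists_cof_eq (α := μ.ord.ToType)
    refine hreg S (fun s => Set.Iic s.1) (by rw [hSc]; exact hcon) ?_ ?_
    · intro s
      have h2 : #(Set.Iio s.1) < #μ.ord.ToType := mk_Iio_lt s.1 (by rw [hΛ]; simp)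
      have h3 : #(Set.Iic s.1) ≤ #(Set.Iio s.1) + 1 := by
        have h4 : Set.Iic s.1 = insert s.1 (Set.Iio s.1) := by
          ext x
          simp only [Set.mem_Iic, Set.mem_insert_iff, Set.mem_Iio, le_iff_eq_or_lt]
        rw [h4]
        exact mk_insert_le
      rw [hΛ] at h2
      exact h3.trans_lt (add_lt_of_lt h0.le h2 (one_lt_aleph0.trans h0))
    · rw [Set.eq_univ_iff_forall]
      intro x
      obtain ⟨s, hs, hxs⟩ := hS x
      exact Set.mem_iUnion.2 ⟨⟨s, hs⟩, hxs⟩
  · -- strong limit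
    intro θ hθ
    by_contra hcon
    push Not at hcon
    have h2 : #μ.ord.ToType ≤ #(θ.out → Bool) := by
      rw [hΛ]
      simpa using hcon
    rw [Cardinal.le_def] at h2
    obtain ⟨F⟩ := h2
    -- a point outside
    have hout : ∀ y : Set μ.ord.ToType, ∃ w, #y < μ → w ∉ y := by
      intro y
      by_cases hy : #y < μ
      · have h3 : y ≠ Set.univ := by
          intro h
          rw [h, mk_univ, hΛ] at hy
          exact lt_irrefl _ hy
        obtain ⟨w, hw⟩ := (Set.ne_univ_iff_exists_notMem y).1 h3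
        exact ⟨w, fun _ => hw⟩
      · obtain ⟨w⟩ : Nonempty μ.ord.ToType := by
          rw [← mk_ne_zero_iff, hΛ]
          exact (aleph0_pos.trans h0).ne'
        exact ⟨w, fun h => (hy h).elim⟩
    choose w hw using hout
    have hdec : ∀ ξ : θ.out, ∃ b : Bool, {y | F (w y) ξ = b} ∈ U := by
      intro ξ
      by_cases h3 : {y | F (w y) ξ = true} ∈ U
      · exact ⟨true, h3⟩
      · refine ⟨false, ?_⟩
        have h4 := Ultrafilter.compl_mem_iff_notMem.2 h3
        filter_upwards [h4] with y hy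
        simpa using hy
    choose b hb using hdec
    have h5 := hcomp θ.out (fun ξ => {y | F (w y) ξ = b ξ}) (by simpa using hθ) hb
    obtain ⟨y, hy, hy'⟩ := Ultrafilter.nonempty_of_mem (Filter.inter_mem h5 hsm)
    obtain ⟨z, ⟨hz, hz'⟩, hzy⟩ := Ultrafilter.nonempty_of_mem
      (Filter.inter_mem (Filter.inter_mem h5 hsm) (hfine (w y)))
    have h6 : F (w y) = F (w z) := by
      funext ξ
      rw [Set.mem_iInter.1 hy ξ, Set.mem_iInter.1 hz ξ]
    have h7 : w y = w z := F.injective h6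
    have h8 : w y ∈ z := hzy
    rw [h7] at h8
    exact hw z hz' h8

end Pool.Agent.MS
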