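import Pool.Agent.Lib_helper27.MS.Tr3
import Pool.Agent.Lib_helper27.MS.Crd
import Pool.Agent.Lib_helper27.MS.Inacc
import Pool.Agent.Lib_helper33.MI.PKG
import Pool.Agent.Lib_helper73.MP.Main

/-!
# The model
-/

namespace Pool.Agent.MS

open Pool.Agent.Lib_helper27 Pool.Agent.Lib_helper27.V Fml Cardinal

/-- If `κ 0 < κ 1 < …` are supercompact then there is a model of ZFC in which, for every
`f : ω → {0, …, l}`, the sequence of the sets `S^n_(f(n))`, `l < n < ω`, is mutually stationary. -/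
theorem main (κ : ℕ → Cardinal.{0}) (hκ : StrictMono κ) (hs : ∀ n, SuperC (κ n)) (l : ℕ) :
    ∃ (M : Type 1) (E : M → M → Prop), IsModelOfZFC E ∧ Holds E (mutStat l) := by
  obtain ⟨Ω, i1, i2, c, hc, hcard⟩ := exists_cards l hκ fun n => (hs n).inaccessible
  have hS : ∀ n, l + 2 ≤ n → It.Supercompact #(Lv c n) := by
    intro n hn
    obtain ⟨m, rfl⟩ : ∃ m, n = m + (l + 2) := ⟨n - (l + 2), by omega⟩
    rw [hcard m]
    exact hs m
  have hP : Pkg (It.P (It.lev hc)) c l := It.pkg_pr hc hS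
  have : Nonempty (It.P (It.lev hc)) := ⟨It.top _⟩
  exact ⟨Ext (It.P (It.lev hc)), extE _, ext_zfc,
    holds_mutStat hc hP (Pool.Agent.Lib_helper73.MP.core hc hP)⟩

end Pool.Agent.MS
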