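import Pool.Agent.Lib_helper27.S.Stmt

/-!
# Mutual stationarity: the formulas

`W` is `ω`, `C` is the sequence `⟨ℵ_n : n ∈ ω⟩`, `L` is `ℵ_ω = ⋃ₙ ℵ_n`.
-/

namespace Pool.Agent.Lib_helper27.Fml

universe v

variable {U : Type v}

/-- `x` is the natural number `k` -/
def isNum : ℕ → U → Fml U
  | 0, x => isEmpty x
  | k + 1, x => ex fun y => and (isNum k y) (isSuc x y)

/-- `C` is the function with domain `W = ω` and `C(0) = ω`, `C(n + 1) =` the least ordinal which does
not inject into `C(n)`; so `C(n) = ℵ_n` -/
def isAlephs (W C : U) : Fml U :=
  and (ex fun D => isFunc C W D)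
    (ball W fun n => all fun x => imp (app C n x)
      (and (imp (isEmpty n) (eq x W))
        (all fun m => imp (isSuc n m) (all fun y => imp (app C m y) (isHartogs y x)))))

/-- `L` is the union of the sets `C(n)`, `n ∈ W` -/
def isUnionOf (L W C : U) : Fml U :=
  all fun x => iff (mem x L) (bex W fun n => ex fun y => and (app C n y) (mem x y))

/-- `F` is a countable family of finitary operations on `L`: for every `j ∈ W` and every finite
sequence `s` of elements of `L` there is exactly one `y` with `((j, s), y) ∈ F`, and `y ∈ L` -/
def isOps (W L F : U) : Fml U :=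
  ball W fun j => ball W fun n => all fun s => imp (isFunc s n L) (all fun z => imp (isOPair z j s)
    (bex L fun y => and (app F z y) (all fun y' => imp (app F z y') (eq y' y))))

/-- `N` is closed under all operations in `F` -/
def isClosedUnder (W F N : U) : Fml U :=
  ball W fun j => ball W fun n => all fun s => imp (isFunc s n N) (all fun z => imp (isOPair z j s)
    (all fun y => imp (app F z y) (mem y N)))

/-- `a` is the supremum (the union) of the set of ordinals `N ∩ K` -/
def isSupOf (a N K : U) : Fml U :=
  all fun x => iff (mem x a) (bex N fun y => and (mem y K) (mem x y))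

/-- there is a function from `b` to `a` with cofinal range -/
def hasCofMap (b a : U) : Fml U :=
  ex fun g => and (isFunc g b a)
    (ball a fun x => bex b fun i => bex a fun y => and (app g i y) (isSubset x y))

/-- the cofinality of the ordinal `a` is `m`: `m` is the least ordinal `b` such that there is a
function from `b` to `a` with cofinal range -/
def isCof (a m : U) : Fml U := and (hasCofMap m a) (ball m fun b => neg (hasCofMap b a))

/-- for every function `f` from `ω` to `b = {0, …, a}` the sequence of the sets
`S^n_(f(n)) = {α < ℵ_n : cf(α) = ℵ_(f(n))}`, `a < n < ω`, is mutually stationary: for every countable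
family `F` of finitary operations on `ℵ_ω` there is a set `N ⊆ ℵ_ω` closed under `F` such that
`sup (N ∩ ℵ_n) ∈ S^n_(f(n))` for all `n` with `a < n < ω` -/
def mutStatAt (a b : U) : Fml U :=
  ex fun W => ex fun C => ex fun L => and (isOmega W) (and (isAlephs W C) (and (isUnionOf L W C)
    (all fun f => imp (isFunc f W b) (all fun F => imp (isOps W L F)
      (ex fun N => and (isSubset N L) (and (isClosedUnder W F N)
        (ball W fun n => imp (mem a n) (all fun m => imp (app f n m)
          (all fun K => imp (app C n K) (all fun M => imp (app C m M)
            (bex K fun s => and (isSupOf s N K) (isCof s M))))))))))))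

/-- for every function `f` from `ω` to `{0, …, l}` the sequence `⟨S^n_(f(n)) : l < n < ω⟩` is
mutually stationary -/
def mutStat (l : ℕ) : Fml U :=
  ex fun a => ex fun b => and (isNum l a) (and (isNum (l + 1) b) (mutStatAt a b))

end Pool.Agent.Lib_helper27.Fml
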