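import Pool.Agent.Lib_helper27.MS.Stmt
import Pool.Agent.Lib_helper27.MS.Defs
import Pool.Agent.Lib_helper27.S.Bits
import Pool.Agent.Lib_helper27.Q.Uni

/-!
# Names of the cardinals
-/

set_option linter.unusedSectionVars false

namespace Pool.Agent.MS

open Pool.Agent.Lib_helper27 Pool.Agent.Lib_helper27.V Pool.Agent.Lib_helper27.S Fml Cardinal

section fn

variable {P : Type} [Preorder P] {D Z : Type}

/-- A random function given by a dense description. -/
def FN.of (Φ : P → D → Z → Prop) (hu : ∀ p d z z', Φ p d z → Φ p d z' → z = z')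
    (hm : ∀ p q d z, q ≤ p → Φ p d z → Φ q d z) : FN P D Z where
  r p d z := Loc p fun q => Φ q d z
  uniq := by
    intro p d z z' h h'
    obtain ⟨q, hq, h1⟩ := h.exists
    obtain ⟨r, hr, h2⟩ := (h'.mono hq).exists
    exact hu r d z z' (hm q r d z hr h1) h2
  mono hq h := h.mono hq
  reg h := h.bind fun _ _ h => h

theorem FN.of_r {Φ : P → D → Z → Prop} {hu : ∀ p d z z', Φ p d z → Φ p d z' → z = z'}
    {hm : ∀ p q d z, q ≤ p → Φ p d z → Φ q d z} {p : P} {d : D} {z : Z} :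
    (FN.of Φ hu hm).r p d z ↔ Loc p fun q => Φ q d z := Iff.rfl

/-- Extension to a total function. -/
theorem FN.exists_total (g : FN P D Z) (z₀ : Z) : ∃ G : FN P D Z, (∀ p, G.Tot p) ∧
    ∀ p d z, g.r p d z → G.r p d z := by
  refine ⟨FN.of (fun p d z => g.r p d z ∨ (z = z₀ ∧ ∀ r ≤ p, ∀ z', ¬ g.r r d z')) ?_ ?_, ?_, ?_⟩
  · rintro p d z z' (h | ⟨h, h1⟩) (h' | ⟨h', h2⟩)
    · exact g.uniq h h'
    · exact (h2 p le_rfl z h).elim
    · exact (h1 p le_rfl z' h').elim
    · rw [h, h']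
  · rintro p q d z hq (h | ⟨h, h1⟩)
    · exact Or.inl (g.mono hq h)
    · exact Or.inr ⟨h, fun r hr => h1 r (hr.trans hq)⟩
  · intro p d q hq
    by_cases h : ∃ r ≤ q, ∃ z, g.r r d z
    · obtain ⟨r, hr, z, hz⟩ := h
      exact ⟨r, hr, z, Loc.pure fun s hs => Or.inl (g.mono hs hz)⟩
    · push Not at h
      exact ⟨q, le_rfl, z₀, Loc.pure fun s hs => Or.inr ⟨rfl, fun r hr => h r (hr.trans hs)⟩⟩
  · intro p d z h
    exact Loc.pure fun s hs => Or.inl (g.mono hs h)

end fn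

section

variable {P : Type} [Preorder P]

/-- names of corresponding ordinals are equal -/
theorem onm_iso {α β : Type} [LinearOrder α] [WellFoundedLT α] [LinearOrder β] [WellFoundedLT β]
    (e : α → β) (he : ∀ a b, b < e a ↔ ∃ a' < a, e a' = b) (a : α) (p : P) :
    feq (onm P a) (onm P (e a)) p := by
  induction a using WellFoundedLT.induction generalizing p with
  | ind a ih =>
    refine feq_ext fun z q hq => ?_
    rw [fmem_onm, fmem_onm]
    constructor
    · intro h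
      refine h.imp ?_
      rintro r _ ⟨y, hy, hz⟩
      exact ⟨e y, (he a _).2 ⟨y, hy, rfl⟩, feq_trans hz (ih y hy r)⟩
    · intro h
      refine h.imp ?_
      rintro r _ ⟨y, hy, hz⟩
      obtain ⟨y', hy', rfl⟩ := (he a _).1 hy
      exact ⟨y', hy', feq_trans hz (feq_symm (ih y' hy' r))⟩

variable {Ω : Type} [LinearOrder Ω] [WellFoundedLT Ω] {c : ℕ → Ω} {l : ℕ}

theorem nat_iso (hc : Cards c l) : ∃ e : ℕ → Ω, (∀ a b, b < e a ↔ ∃ a' < a, e a' = b) ∧
    ∀ x, x < c 0 ↔ ∃ n, e n = x := by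
  have h1 : Ordinal.type (fun x y : Lv c 0 => x < y) = Ordinal.omega0 := by
    apply le_antisymm
    · by_contra hcon
      push Not at hcon
      obtain ⟨x, hx⟩ := Ordinal.typein_surj (fun x y : Lv c 0 => x < y) hcon
      have h2 : #{y : Lv c 0 // y < x} = ℵ₀ := by
        have := Ordinal.card_typein (r := fun x y : Lv c 0 => x < y) x
        rw [← this, hx]
        simp
      have h3 : #{y : Lv c 0 // y < x} ≤ #{y : Ω // y < x.1} := by
        refine mk_le_of_injective (f := fun y => ⟨y.1.1, y.2⟩) ?_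
        intro y y' h
        have := congrArg Subtype.val h
        exact Subtype.ext (Subtype.ext this)
      have h4 := hc.init 0 x.1 x.2
      rw [hc.zero] at h4
      exact absurd (h2 ▸ h3) (not_le.2 h4)
    · rw [← Cardinal.ord_aleph0, Cardinal.ord_le, Ordinal.card_type, hc.zero]
  rw [← Ordinal.type_nat_lt] at h1
  obtain ⟨f⟩ := Ordinal.type_eq.1 h1
  have hlt : ∀ x y : Lv c 0, f x < f y ↔ x < y := fun x y => f.map_rel_iff
  refine ⟨fun n => (f.symm n).1, fun a b => ⟨fun h => ?_, ?_⟩, fun x => ⟨fun h => ?_, ?_⟩⟩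
  · have hb : b < c 0 := h.trans (f.symm a).2
    refine ⟨f ⟨b, hb⟩, ?_, ?_⟩
    · have := (hlt ⟨b, hb⟩ (f.symm a)).2 h
      simpa using this
    · simp
  · rintro ⟨a', h, rfl⟩
    have := (hlt (f.symm a') (f.symm a)).1 (by simpa using h)
    exact this
  · exact ⟨f ⟨x, h⟩, by simp⟩
  · rintro ⟨n, rfl⟩
    exact (f.symm n).2

/-- `κ_0` is `ω` -/
theorem feq_c0 (hc : Cards c l) (p : P) : feq (onm P (c 0)) (oall P ℕ) p := by
  obtain ⟨e, he, he'⟩ := nat_iso hc
  refine feq_ext fun z q hq => ?_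
  rw [fmem_onm, fmem_oall]
  constructor
  · intro h
    refine h.imp ?_
    rintro r _ ⟨y, hy, hz⟩
    obtain ⟨n, rfl⟩ := (he' y).1 hy
    exact ⟨n, feq_trans hz (feq_symm (onm_iso e he n r))⟩
  · intro h
    refine h.imp ?_
    rintro r _ ⟨n, hz⟩
    exact ⟨e n, (he' _).2 ⟨n, rfl⟩, feq_trans hz (onm_iso e he n r)⟩

/-- the name of the sequence of the alephs -/
noncomputable def Cn (P : Type) [Preorder P] (c : ℕ → Ω) : Name P :=
  mkFn ℕ (fun n => onm P n) (fun n => onm P (c n)) fun _ _ => True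

theorem app_Cn {x y : Name P} {p : P} : Fc p (app (Cn P c) x y) ↔ Loc p fun r => ∃ n : ℕ,
    feq x (onm P n) r ∧ feq y (onm P (c n)) r := by
  refine (fc_app down_true).trans ⟨fun h => h.imp ?_, fun h => h.imp ?_⟩
  · rintro r _ ⟨n, _, h1, h2⟩
    exact ⟨n, h1, h2⟩
  · rintro r _ ⟨n, h1, h2⟩
    exact ⟨n, trivial, h1, h2⟩

theorem app_Cn_of {n : ℕ} {x y : Name P} {p : P} (hx : feq x (onm P n) p)
    (h : Fc p (app (Cn P c) x y)) : feq y (onm P (c n)) p := by
  refine feq_dense ((app_Cn.1 h).imp ?_)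
  rintro r hr ⟨m, h1, h2⟩
  rw [onm_inj (feq_trans (feq_symm (feq_mono hr hx)) h1)]
  exact h2

theorem func_Cn (p : P) : Fc p (isFunc (Cn P c) (oall P ℕ) (oall P Ω)) := by
  refine fc_isFunc (ι := ℕ) down_true ?_ ?_ ?_
  · intro i r _ _
    exact ⟨onm_mem_oall i r, onm_mem_oall _ r⟩
  · intro x q _ hx
    refine (fmem_oall.1 hx).imp ?_
    rintro r _ ⟨i, hi⟩
    exact ⟨i, trivial, hi⟩
  · intro i j r _ _ _ h
    rw [onm_inj h]
    exact feq_refl _ _

theorem lv_le (hc : Cards c l) {n m : ℕ} (h : n ≤ m) : #(Lv c n) ≤ #(Lv c m) :=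
  mk_le_of_injective (f := fun x : Lv c n => (⟨x.1, x.2.trans_le (hc.mono.monotone h)⟩ : Lv c m))
    fun _ _ h => Subtype.ext (congrArg (fun z : Lv c m => z.1) h)

theorem aleph0_le_lv (hc : Cards c l) (n : ℕ) : ℵ₀ ≤ #(Lv c n) := (hc.reg n).aleph0_le

/-- `κ_(n+1)` has no largest element -/
theorem no_max (hc : Cards c l) (n : ℕ) (x : Lv c n) : ∃ y : Lv c n, x < y := by
  by_contra hcon
  push Not at hcon
  have h1 : #(Lv c n) ≤ #({y : Ω // y < x.1} ⊕ PUnit.{1}) := by
    classical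
    refine mk_le_of_injective (f := fun y : Lv c n =>
      if h : y.1 < x.1 then Sum.inl ⟨y.1, h⟩ else Sum.inr PUnit.unit) ?_
    intro y y' h
    by_cases h1 : y.1 < x.1 <;> by_cases h2 : y'.1 < x.1
    · simp only [h1, h2, dif_pos, Sum.inl.injEq, Subtype.mk.injEq] at h
      exact Subtype.ext h
    · simp [h1, h2] at h
    · simp [h1, h2] at h
    · have h3 : y = x := le_antisymm (hcon y) (not_lt.1 h1)
      have h4 : y' = x := le_antisymm (hcon y') (not_lt.1 h2)
      rw [h3, h4]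
  have h2 := hc.init n x.1 x.2
  have h3 : #({y : Ω // y < x.1} ⊕ PUnit.{1}) < #(Lv c n) := by
    rw [mk_sum]
    simp only [lift_id, mk_punit]
    exact add_lt_of_lt (aleph0_le_lv hc n) h2 (one_lt_aleph0.trans_le (aleph0_le_lv hc n))
  exact absurd h1 (not_le.2 h3)

/-- the names of the elements of the cardinals -/
theorem inj_name {x : Ω} {n : ℕ} {p : P} (F : FN P (Lv c n) {y : Ω // y < x})
    (hF : ∀ y, Loc p (fun q => ∃ d, F.r q d y)) :
    Fc p (ex fun f => isInj f (onm P x) (onm P (c n))) := by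
  let Q : {y : Ω // y < x} × Lv c n → P → Prop := fun z q =>
    F.r q z.2 z.1 ∧ ∀ d' < z.2, ∀ r ≤ q, ¬ F.r r d' z.1
  have hQ : Down (P := P) Q := fun z q r hr h => ⟨F.mono hr h.1, fun d hd s hs =>
    h.2 d hd s (hs.trans hr)⟩
  have hsame : ∀ y d d' (q : P), Q (y, d) q → Q (y, d') q → d = d' := by
    intro y d d' q h1 h2
    rcases lt_trichotomy d d' with h | h | h
    · exact (h2.2 d h q le_rfl h1.1).elim
    · exact h
    · exact (h1.2 d' h q le_rfl h2.1).elim
  have hfun : Fc p (isFunc (mkFn ({y : Ω // y < x} × Lv c n) (fun z => onm P z.1.1)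
      (fun z => onm P z.2.1) Q) (onm P x) (onm P (c n))) := by
    refine fc_isFunc hQ ?_ ?_ ?_
    · rintro ⟨y, d⟩ r _ _
      exact ⟨onm_mem y.2 r, onm_mem d.2 r⟩
    · intro z q hq hz
      refine (fmem_onm.1 hz).bind ?_
      rintro r hr ⟨y, hy, he⟩
      intro s hs
      -- the least possible value
      have hne : {d : Lv c n | ∃ t ≤ s, F.r t d ⟨y, hy⟩}.Nonempty := by
        obtain ⟨t, ht, d, hd⟩ := hF ⟨y, hy⟩ s (hs.trans (hr.trans hq))
        exact ⟨d, t, ht, hd⟩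
      obtain ⟨t, ht, hd⟩ := (wellFounded_lt (α := Lv c n)).min_mem _ hne
      refine ⟨t, ht, (⟨y, hy⟩, (wellFounded_lt (α := Lv c n)).min _ hne), ⟨hd, ?_⟩,
        feq_mono (ht.trans hs) he⟩
      intro d' hd' u hu h
      exact WellFounded.not_lt_min (wellFounded_lt (α := Lv c n)) (s := {d : Lv c n | ∃ t ≤ s, F.r t d ⟨y, hy⟩}) ⟨u, hu.trans ht, h⟩ hd'
    · rintro ⟨y, d⟩ ⟨y', d'⟩ r _ h1 h2 h3
      have h4 : y = y' := Subtype.ext (onm_inj h3)
      subst h4
      rw [hsame y d d' r h1 h2]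
      exact feq_refl _ _
  refine forces_ex.2 (Loc.pure fun q hq => ⟨mkFn ({y : Ω // y < x} × Lv c n)
    (fun z => onm P z.1.1) (fun z => onm P z.2.1) Q,
    Forces.mono nf_basic hq (fc_isInj hQ hfun ?_)⟩)
  rintro ⟨y, d⟩ ⟨y', d'⟩ r _ h1 h2 h3
  have h4 : d = d' := Subtype.ext (onm_inj h3)
  subst h4
  have h5 : y = y' := F.uniq h1.1 h2.1
  rw [h5]
  exact feq_refl _ _

/-- an injective function given by a ground model function -/
theorem inj_name' {x : Ω} {n : ℕ} (p : P) (e : {y : Ω // y < x} → Lv c n)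
    (he : Function.Injective e) : Fc p (ex fun f => isInj f (onm P x) (onm P (c n))) := by
  refine inj_name (F := ⟨fun _ d y => e y = d, ?_, fun _ h => h, fun h => h.const⟩) ?_
  · intro _ d y y' h h'
    exact he (h.trans h'.symm)
  · intro y
    exact Loc.pure fun q _ => ⟨e y, rfl⟩

/-- `κ_(n+1)` is the successor of `κ_n` in the extension -/
theorem hart (hc : Cards c l) (hb : ∀ m, Bdd P c m) (hcoll : ∀ n, l + 1 ≤ n → Coll P c n)
    (n : ℕ) (p : P) : Fc p (isHartogs (onm P (c n)) (onm P (c (n + 1)))) := by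
  refine ⟨onm_ord _ p, ?_, ?_⟩
  · intro q _ hex
    obtain ⟨q', hq', f, hf⟩ := (forces_ex.1 hex).exists
    let g : FN P (Lv c n) (Lv c (n + 1)) := FN.of
      (fun r y x => r ≤ q' ∧ Fc r (app f (onm P x.1) (onm P y.1)))
      (by
        rintro r y x x' ⟨h, h1⟩ ⟨_, h2⟩
        exact Subtype.ext (onm_inj (inj_single (Forces.mono nf_basic h hf) h1 h2)))
      (fun r s y x hs h => ⟨hs.trans h.1, Forces.mono nf_basic hs h.2⟩)
    obtain ⟨x0⟩ : Nonempty (Lv c (n + 1)) := by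
      rw [← mk_ne_zero_iff]
      exact (aleph0_pos.trans_le (aleph0_le_lv hc (n + 1))).ne'
    obtain ⟨G, hG, hG'⟩ := g.exists_total x0
    have hlt : #(Lv c n) < #(Lv c (n + 1)) := hc.init (n + 1) (c n) (hc.mono (Nat.lt_succ_self n))
    obtain ⟨r, hr, x, hx⟩ := hb (n + 1) (Lv c n) hlt q' G (hG q')
    obtain ⟨x', hx'⟩ := no_max hc (n + 1) x
    obtain ⟨s, hs, y, hy, hy'⟩ := (func_total (Forces.mono nf_basic hr hf.1)
      (onm_mem x'.2 r)).exists
    obtain ⟨t, ht, y', hy1, hy2⟩ := (fmem_onm.1 hy).exists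
    have h1 : g.r t ⟨y', hy1⟩ x' := Loc.pure fun u hu =>
      ⟨hu.trans (ht.trans (hs.trans hr)), Forces.mono nf_basic hu
        (app_congr' (feq_refl _ _) hy2 (Forces.mono nf_basic ht hy'))⟩
    exact absurd (hx t (ht.trans hs) ⟨y', hy1⟩ x' (hG' _ _ _ h1)) (not_le.2 hx')
  · refine (forces_ball nf_basic).2 fun z q _ hz => ?_
    refine Forces.dense nf_basic ((fmem_onm.1 hz).imp ?_)
    rintro r hr ⟨x, hx, he⟩
    have key : Fc r (ex fun f => isInj f (onm P x) (onm P (c n))) := by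
      by_cases h : n ≤ l
      · have h1 := hc.init (n + 1) x hx
        rw [hc.succ n h, Order.lt_succ_iff, Cardinal.le_def] at h1
        obtain ⟨e⟩ := h1
        exact inj_name' r e e.injective
      · by_cases h2 : c n ≤ x
        · obtain ⟨F, _, hF⟩ := hcoll n (by omega) x h2 hx
          exact inj_name F fun y => hF r y
        · exact inj_name' r (fun y => ⟨y.1, y.2.trans (not_le.1 h2)⟩)
            fun y y' h => Subtype.ext (congrArg (fun z : Lv c n => z.1) h)
    exact (fc_uni (cv (ex fun f => isInj f 0 1) 2) 2 (l := [onm P x]) (l' := [z])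
      (.cons (feq_symm he) .nil) (feq_refl (onm P (c n)) r) le_rfl).1 key

end

end Pool.Agent.MS
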