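import Pool.Agent.Lib_helper27.MS.Tr1

/-!
# Suprema, cofinalities and operations in the extension
-/

set_option linter.unusedSectionVars false

namespace Pool.Agent.MS

open Pool.Agent.Lib_helper27 Pool.Agent.Lib_helper27.V Pool.Agent.Lib_helper27.S Fml Cardinal

section

variable {P : Type} [Preorder P] {Ω : Type} [LinearOrder Ω] [WellFoundedLT Ω] {c : ℕ → Ω} {l : ℕ}

/-- deciding random functions with small domain -/
theorem decide_fn (hcl : Cl P #(Lv c l)) {D Z : Type} (hD : #D ≤ #(Lv c l)) (g : FN P D Z) {p : P}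
    (hg : g.Tot p) : ∃ q ≤ p, ∃ f : D → Z, ∀ d, g.r q d (f d) := by
  obtain ⟨q, hq, h⟩ := hcl.distr hD (fun d => {q | ∃ z, g.r q d z}) p
    (fun d q hq => hg d q hq)
    (fun d q r hr ⟨z, hz⟩ => ⟨z, g.mono hr hz⟩)
  choose f hf using h
  exact ⟨q, hq, f, hf⟩

/-- ground model functions to `κ_m` are bounded -/
theorem bdd_ground {m : ℕ} (hb : Bdd P c m) (p : P) {D : Type} (hD : #D < #(Lv c m))
    (f : D → Lv c m) : ∃ x, ∀ d, f d ≤ x := by
  obtain ⟨q, _, x, hx⟩ := hb D hD p ⟨fun _ d z => z = f d, fun h h' => h.trans h'.symm,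
    fun _ h => h, fun h => h.const⟩ (fun d => Loc.pure fun q _ => ⟨f d, rfl⟩)
  exact ⟨x, fun d => hx q le_rfl d _ rfl⟩

/-- the name of a set of ordinals -/
noncomputable def setN (P : Type) [Preorder P] (N : Set Ω) : Name P :=
  mkAll {x : Ω // x ∈ N} fun x => onm P x.1

theorem fmem_setN {N : Set Ω} {z : Name P} {p : P} :
    fmem z (setN P N) p ↔ Loc p fun r => ∃ x, x ∈ N ∧ feq z (onm P x) r := by
  rw [setN, fmem_mkAll]
  simp only [Subtype.exists, exists_prop]

theorem onm_sub {x y : Ω} (h : x ≤ y) (p : P) : Fc p (isSubset (onm P x) (onm P y)) := by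
  refine (forces_ball nf_basic).2 fun z q _ hz => ?_
  refine fmem_onm.2 ((fmem_onm.1 hz).imp ?_)
  rintro r _ ⟨x', hx', he⟩
  exact ⟨x', hx'.trans_le h, he⟩

theorem not_onm_sub {x y : Ω} (h : y < x) (p : P) : ¬ Fc p (isSubset (onm P x) (onm P y)) := by
  intro h1
  exact onm_irrefl y p ((forces_ball nf_basic).1 h1 (onm P y) p le_rfl (onm_mem h p))

/-- The supremum of `N ∩ κ_m` has cofinality `κ_j`. -/
theorem fc_sup (hc : Cards c l) (hcl : Cl P #(Lv c l)) (hb : ∀ m, Bdd P c m) {N : Set Ω}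
    {m j : ℕ} (hj : j ≤ l) (hm : l < m) (s : Lv c j → Lv c m) (hs : StrictMono s)
    (hsN : ∀ i, (s i).1 ∈ N) (hcof : ∀ x ∈ N, x < c m → ∃ i, x < (s i).1) (p : P) :
    ∃ α : Ω, α < c m ∧ Fc p (and (isSupOf (onm P α) (setN P N) (onm P (c m)))
      (isCof (onm P α) (onm P (c j)))) := by
  have hlt : #(Lv c j) < #(Lv c m) :=
    (lv_le hc hj).trans_lt (hc.init m (c l) (hc.mono hm))
  obtain ⟨b, hbd⟩ := bdd_ground (hb m) p hlt s
  obtain ⟨b', hb'⟩ := no_max hc m b
  have hne : {x : Ω | ∀ i, (s i).1 < x}.Nonempty := ⟨b'.1, fun i => lt_of_le_of_lt (hbd i) hb'⟩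
  obtain ⟨α, hα1, hα2⟩ : ∃ α : Ω, (∀ i, (s i).1 < α) ∧ ∀ x, (∀ i, (s i).1 < x) → α ≤ x :=
    ⟨_, (wellFounded_lt (α := Ω)).min_mem _ hne, fun x hx => not_lt.1 fun h =>
      WellFounded.not_lt_min (wellFounded_lt (α := Ω)) (s := {x : Ω | ∀ i, (s i).1 < x}) hx h⟩
  have hα : ∀ y, y < α → ∃ i, y < (s i).1 := by
    intro y hy
    by_contra hcon
    push Not at hcon
    have h1 : ∀ i, (s i).1 < y := by
      intro i
      obtain ⟨i', hi'⟩ := no_max hc j i
      exact lt_of_lt_of_le (hs hi') (hcon i')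
    exact absurd (hα2 y h1) (not_le.2 hy)
  have hαm : α < c m := lt_of_le_of_lt (hα2 b'.1 fun i => lt_of_le_of_lt (hbd i) hb') b'.2
  refine ⟨α, hαm, ?_, ?_, ?_⟩
  · -- the supremum
    intro x
    refine (forces_iff nf_basic).2 fun q hq => ⟨fun h => ?_, fun h => ?_⟩
    · refine forces_bex.2 ((fmem_onm.1 h).imp ?_)
      rintro r _ ⟨x', hx', he⟩
      obtain ⟨i, hi⟩ := hα x' hx'
      exact ⟨onm P (s i).1, fmem_setN.2 (Loc.pure fun t _ => ⟨_, hsN i, feq_refl _ _⟩),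
        onm_mem (s i).2 r, fmem_congr_left (feq_symm he) (onm_mem hi r)⟩
    · refine fmem_dense ((forces_bex.1 h).bind ?_)
      rintro r _ ⟨y, hy, hyK, hxy⟩
      refine (fmem_setN.1 hy).imp ?_
      rintro t ht ⟨y', hy', he⟩
      have h1 : fmem (onm P y') (onm P (c m)) t := fmem_congr_left he (fmem_mono ht hyK)
      obtain ⟨i, hi⟩ := hcof y' hy' (onm_mem_iff.1 h1)
      have h2 : Fc t (isSubset (onm P y') (onm P α)) := onm_sub (hi.trans (hα1 i)).le t
      exact (forces_ball nf_basic).1 h2 x t le_rfl (fmem_congr_right he (fmem_mono ht hxy))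
  · -- a cofinal map
    have hfun : Fc p (isFunc (mkFn (Lv c j) (fun i => onm P i.1) (fun i => onm P (s i).1)
        fun _ _ => True) (onm P (c j)) (onm P α)) := by
      refine fc_isFunc (ι := Lv c j) down_true ?_ ?_ ?_
      · intro i r _ _
        exact ⟨onm_mem i.2 r, onm_mem (hα1 i) r⟩
      · intro x q _ hx
        refine (fmem_onm.1 hx).imp ?_
        rintro r _ ⟨i, hi, he⟩
        exact ⟨⟨i, hi⟩, trivial, he⟩
      · intro i i' r _ _ _ h
        have h1 : i = i' := Subtype.ext (onm_inj h)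
        rw [h1]
        exact feq_refl _ _
    refine forces_ex.2 (Loc.pure fun q hq => ⟨mkFn (Lv c j) (fun i => onm P i.1)
      (fun i => onm P (s i).1) fun _ _ => True, Forces.mono nf_basic hq hfun, ?_⟩)
    refine (forces_ball nf_basic).2 fun x r _ hx => ?_
    refine forces_bex.2 ((fmem_onm.1 hx).imp ?_)
    rintro t _ ⟨x', hx', he⟩
    obtain ⟨i, hi⟩ := hα x' hx'
    refine ⟨onm P i.1, onm_mem i.2 t, forces_bex.2 (Loc.pure fun u hu => ⟨onm P (s i).1,
      onm_mem (hα1 i) u, (fc_app down_true).2 (Loc.pure fun v _ => ⟨i, trivial, feq_refl _ _,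
        feq_refl _ _⟩), ?_⟩)⟩
    exact R.isSubset_congr (feq_symm (feq_mono hu he)) (feq_refl (onm P (s i).1) u)
      (onm_sub hi.le u)
  · -- no shorter cofinal map
    refine (forces_ball nf_basic).2 fun b q hq hbm => ?_
    intro r hr hex
    obtain ⟨t, ht, b', hb', he⟩ := ((fmem_onm.1 hbm).mono hr).exists
    obtain ⟨u, hu, g, hg, hgc⟩ := ((forces_ex.1 hex).mono ht).exists
    have hgf : Fc u (isFunc g (onm P b') (onm P α)) :=
      R.isFunc_congr (feq_refl g u) (feq_mono hu he) (feq_refl _ u) hg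
    let G : FN P {y : Ω // y < b'} {z : Ω // z < α} := FN.of
      (fun v y z => v ≤ u ∧ Fc v (app g (onm P y.1) (onm P z.1)))
      (by
        rintro v y z z' ⟨h, h1⟩ ⟨_, h2⟩
        exact Subtype.ext (onm_inj (func_single (Forces.mono nf_basic h hgf) h1 h2)))
      (fun v w y z hw h => ⟨hw.trans h.1, Forces.mono nf_basic hw h.2⟩)
    have hG : G.Tot u := by
      rintro ⟨y, hy⟩ v hv
      obtain ⟨w, hw, z, hz, hz'⟩ := (func_total (Forces.mono nf_basic hv hgf)
        (onm_mem hy v)).exists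
      obtain ⟨w', hw', z', hz1, hz2⟩ := (fmem_onm.1 hz).exists
      refine ⟨w', hw'.trans hw, ⟨z', hz1⟩, Loc.pure fun w'' hw'' => ⟨hw''.trans (hw'.trans
        (hw.trans hv)), ?_⟩⟩
      exact Forces.mono nf_basic hw'' (app_congr' (feq_refl _ _) hz2
        (Forces.mono nf_basic hw' hz'))
    have hDlt : #{y : Ω // y < b'} < #(Lv c j) := hc.init j b' hb'
    obtain ⟨v, hv, h, hh⟩ := decide_fn hcl (hDlt.le.trans (lv_le hc hj)) G hG
    choose i hi using fun y => hα (h y).1 (h y).2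
    obtain ⟨i₀, hi₀⟩ := bdd_ground (hb j) p hDlt i
    have h1 : ∀ y, (h y).1 < (s i₀).1 := fun y =>
      lt_of_lt_of_le (hi y) (hs.monotone (hi₀ y))
    have h2 := (forces_ball nf_basic).1 hgc (onm P (s i₀).1) v hv (onm_mem (hα1 i₀) v)
    obtain ⟨w, hw, x, hx, h3⟩ := (forces_bex.1 h2).exists
    obtain ⟨w1, hw1, z, hz, h4, h5⟩ := (forces_bex.1 h3).exists
    have h6 : fmem x (onm P b') w1 := fmem_congr_right (feq_mono (hw1.trans (hw.trans
      (hv.trans hu))) he) (fmem_mono hw1 hx)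
    obtain ⟨w2, hw2, x', hx', hxe⟩ := (fmem_onm.1 h6).exists
    obtain ⟨w3, hw3, h7⟩ := (hh ⟨x', hx'⟩ w2 (hw2.trans (hw1.trans hw)))
    have h8 : feq z (onm P (h ⟨x', hx'⟩).1) w3 :=
      func_single (Forces.mono nf_basic h7.1 hgf)
        (app_congr' (feq_mono hw3 hxe) (feq_refl _ _)
          (Forces.mono nf_basic (hw3.trans hw2) h4)) h7.2
    exact not_onm_sub (h1 ⟨x', hx'⟩) w3 (R.isSubset_congr (feq_refl (onm P (s i₀).1) w3) h8
      (Forces.mono nf_basic (hw3.trans hw2) h5))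

end

end Pool.Agent.MS
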