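import Pool.Agent.Lib_helper27.MS.Tr2

/-!
# The forcing theorem
-/

set_option linter.unusedSectionVars false

namespace Pool.Agent.MS

open Pool.Agent.Lib_helper27 Pool.Agent.Lib_helper27.V Pool.Agent.Lib_helper27.S Fml Cardinal

section

variable {P : Type} [Preorder P] {Ω : Type} [LinearOrder Ω] [WellFoundedLT Ω] {c : ℕ → Ω} {l : ℕ}

/-- the name of a finite sequence -/
noncomputable def lN (P : Type) [Preorder P] (L : List Ω) : Name P := finN (onm P) L.get

theorem lN_eq {n : ℕ} (g : Fin n → Ω) : ∃ L : List Ω, (∀ x ∈ L, ∃ i, g i = x) ∧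
    lN P L = finN (onm P) g := by
  refine ⟨List.ofFn g, ?_, ?_⟩
  · intro x hx
    rw [List.mem_ofFn] at hx
    exact hx
  · have key : ∀ (m : ℕ) (h : m = n) (g' : Fin m → Ω), (∀ i : Fin m, g' i = g (i.cast h)) →
        finN (onm P) g' = finN (onm P) g := by
      rintro m rfl g' h
      have : g' = g := funext fun i => h i
      rw [this]
    exact key _ (by simp) _ fun i => by
      simp only [List.get_ofFn]

theorem func_lN (L : List Ω) (p : P) : Fc p (isFunc (lN P L) (onm P L.length) (oall P Ω)) :=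
  func_finN fun _ => onm_mem_oall _ p

theorem opair_self (a b : Name P) (p : P) : Fc p (isOPair (mkOPair a b) a b) :=
  fc_opair_iff.2 (feq_refl _ _)

section ops

variable {F : Name P} {p₀ : P} (hF : Fc p₀ (isOps (oall P ℕ) (oall P Ω) F))

include hF

theorem ops_app (j : ℕ) (L : List Ω) {q : P} (hq : q ≤ p₀) :
    Fc q (bex (oall P Ω) fun y => and (app F (mkOPair (onm P j) (lN P L)) y)
      (all fun y' => imp (app F (mkOPair (onm P j) (lN P L)) y') (eq y' y))) := by
  have h1 := (forces_ball nf_basic).1 ((forces_ball nf_basic).1 hF (onm P j) q hq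
    (onm_mem_oall j q)) (onm P L.length) q le_rfl (onm_mem_oall _ q) (lN P L)
  exact (forces_imp nf_basic).1 ((forces_imp nf_basic).1 h1 q le_rfl (func_lN L q)
    (mkOPair (onm P j) (lN P L))) q le_rfl (opair_self _ _ q)

theorem ops_single {j : ℕ} {L : List Ω} {q : P} (hq : q ≤ p₀) {y y' : Name P}
    (h : Fc q (app F (mkOPair (onm P j) (lN P L)) y))
    (h' : Fc q (app F (mkOPair (onm P j) (lN P L)) y')) : feq y y' q := by
  refine feq_dense ((forces_bex.1 (ops_app hF j L hq)).imp ?_)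
  rintro r hr ⟨y0, _, _, h1⟩
  have h2 : feq y y0 r := (forces_imp nf_basic).1 (h1 y) r le_rfl (Forces.mono nf_basic hr h)
  have h3 : feq y' y0 r := (forces_imp nf_basic).1 (h1 y') r le_rfl (Forces.mono nf_basic hr h')
  exact feq_trans h2 (feq_symm h3)

/-- the random functions of an operation -/
def opF (j : ℕ) : FN P (List Ω) Ω := FN.of
  (fun q L y => q ≤ p₀ ∧ Fc q (app F (mkOPair (onm P j) (lN P L)) (onm P y)))
  (by
    rintro q L y y' ⟨h, h1⟩ ⟨_, h2⟩
    exact onm_inj (ops_single hF h h1 h2))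
  (fun q r L y hr h => ⟨hr.trans h.1, Forces.mono nf_basic hr h.2⟩)

theorem opF_tot (j : ℕ) : (opF hF j).Tot p₀ := by
  intro L
  refine (forces_bex.1 (ops_app hF j L le_rfl)).bind ?_
  rintro q hq ⟨y, hy, h1, _⟩
  refine (fmem_oall.1 hy).imp ?_
  rintro r hr ⟨y', he⟩
  exact ⟨y', Loc.pure fun s hs => ⟨hs.trans (hr.trans hq), app_congr' (feq_refl _ _)
    (feq_mono hs he) (Forces.mono nf_basic (hs.trans hr) h1)⟩⟩

/-- closed sets -/
theorem fc_closed {N : Set Ω} {q : P}
    (hN : ∀ j : ℕ, ∀ L : List Ω, (∀ x ∈ L, x ∈ N) → ∃ y ∈ N, (opF hF j).r q L y) :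
    Fc q (isClosedUnder (oall P ℕ) F (setN P N)) := by
  refine (forces_ball nf_basic).2 fun j' r hr hj' => ?_
  refine (forces_ball nf_basic).2 fun n' s hs hn' s' => ?_
  refine (forces_imp nf_basic).2 fun t ht hs' z => ?_
  refine (forces_imp nf_basic).2 fun u hu hz y => ?_
  refine (forces_imp nf_basic).2 fun v hv hy => ?_
  refine fmem_dense ?_
  have hvt := hv.trans hu
  refine ((fmem_oall.1 hj').mono (hvt.trans (ht.trans hs))).bind ?_
  rintro a1 ha1 ⟨j, hj⟩
  refine ((fmem_oall.1 hn').mono (ha1.trans (hvt.trans ht))).bind ?_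
  rintro a2 ha2 ⟨n, hn⟩
  have hsf : Fc a2 (isFunc s' (onm P n) (setN P N)) :=
    R.isFunc_congr (feq_refl _ _) hn (feq_refl _ _)
      (Forces.mono nf_basic (ha2.trans (ha1.trans hvt)) hs')
  refine (func_fin (I := {x : Ω // x ∈ N}) (x := fun x => onm P x.1) hsf ?_).bind ?_
  · intro w _ z hz
    refine (fmem_setN.1 hz).imp ?_
    rintro w' _ ⟨x, hx, he⟩
    exact ⟨⟨x, hx⟩, he⟩
  · rintro a3 ha3 ⟨g, hg⟩
    obtain ⟨L, hL, hLg⟩ := lN_eq (P := P) (fun i => (g i).1)
    have hg' : feq s' (lN P L) a3 := by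
      rw [hLg]
      exact hg
    obtain ⟨y', hy', hyr⟩ := hN j L (by
      intro x hx
      obtain ⟨i, rfl⟩ := hL x hx
      exact (g i).2)
    have ha3q : a3 ≤ q := ha3.trans (ha2.trans (ha1.trans (hvt.trans (ht.trans (hs.trans hr)))))
    have ha3v : a3 ≤ v := ha3.trans (ha2.trans ha1)
    refine (hyr.mono ha3q).imp ?_
    rintro a4 ha4 ⟨ha4p, h1⟩
    have hzz : feq z (mkOPair (onm P j) (lN P L)) a4 := by
      refine feq_trans (feq_mono (ha4.trans (ha3v.trans hv)) (fc_opair_iff.1 hz)) ?_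
      exact feq_opair_congr (feq_mono (ha4.trans (ha3.trans ha2)) hj) (feq_mono ha4 hg')
    have h2 : Fc a4 (app F (mkOPair (onm P j) (lN P L)) y) :=
      app_congr' hzz (feq_refl _ _) (Forces.mono nf_basic (ha4.trans ha3v) hy)
    have h3 := ops_single hF ha4p h2 h1
    exact fmem_setN.2 (Loc.pure fun w hw => ⟨y', hy', feq_mono hw h3⟩)

end ops

theorem isSuc_onm {n : ℕ} (p : P) : Fc p (isSuc (onm P (n + 1)) (onm P n)) :=
  R.fc_isSucc n p

/-- The forcing theorem. -/
theorem forces_mutStatAt (hc : Cards c l) (hcl : Cl P #(Lv c l)) (hb : ∀ m, Bdd P c m)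
    (hcoll : ∀ n, l + 1 ≤ n → Coll P c n) (hM : MutSt P c l) (p : P) :
    Fc p (mutStatAt (onm P l) (onm P (l + 1))) := by
  refine forces_ex.2 (Loc.pure fun p1 _ => ⟨oall P ℕ, ?_⟩)
  refine forces_ex.2 (Loc.pure fun p2 _ => ⟨Cn P c, ?_⟩)
  refine forces_ex.2 (Loc.pure fun p3 _ => ⟨oall P Ω, ?_⟩)
  refine ⟨omega_isOmega p3, ⟨forces_ex.2 (Loc.pure fun q _ => ⟨oall P Ω, func_Cn q⟩), ?_⟩, ?_, ?_⟩
  · -- the alephs
    refine (forces_ball nf_basic).2 fun n q _ hn x => ?_
    refine (forces_imp nf_basic).2 fun r hr hx => ?_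
    refine ⟨(forces_imp nf_basic).2 fun s hs he => ?_, fun m => ?_⟩
    · refine feq_dense (((fmem_oall.1 hn).mono (hs.trans hr)).imp ?_)
      rintro t ht ⟨k, hk⟩
      have hk0 : k = 0 := by
        by_contra hne
        have h1 : fmem (onm P (0 : ℕ)) n t :=
          fmem_congr_right (feq_symm hk) (onm_mem (Nat.pos_of_ne_zero hne) t)
        exact he (onm P (0 : ℕ)) t ht h1
      subst hk0
      exact feq_trans (app_Cn_of hk (Forces.mono nf_basic (ht.trans hs) hx)) (feq_c0 hc t)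
    · refine (forces_imp nf_basic).2 fun s hs hsuc y => ?_
      refine (forces_imp nf_basic).2 fun t ht hy => ?_
      refine Forces.dense nf_basic ((app_Cn.1 hy).bind ?_)
      rintro u hu ⟨k, hk, hyk⟩
      have h1 : Fc u (isSuc n (onm P k)) :=
        (fc_uni (cv (isSuc 0 1) 2) 2 (l := [n]) (l' := [n]) (.cons (feq_refl _ _) .nil) hk
          le_rfl).1 (Forces.mono nf_basic (hu.trans ht) hsuc)
      have h2 : feq n (onm P (k + 1)) u := fc_isSuc h1
      have h3 := app_Cn_of h2 (Forces.mono nf_basic (hu.trans (ht.trans hs)) hx)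
      refine Loc.pure fun v hv => ?_
      exact (fc_uni (cv (isHartogs 0 1) 2) 2 (l := [onm P (c k)]) (l' := [y])
        (.cons (feq_symm (feq_mono hv hyk)) .nil) (feq_symm (feq_mono hv h3)) le_rfl).1
        (hart hc hb hcoll k v)
  · -- the union
    intro x
    refine (forces_iff nf_basic).2 fun q _ => ⟨fun h => ?_, fun h => ?_⟩
    · refine forces_bex.2 ((fmem_oall.1 h).imp ?_)
      rintro r _ ⟨x', he⟩
      obtain ⟨n, hn⟩ := hc.cof x'
      refine ⟨onm P n, onm_mem_oall n r, forces_ex.2 (Loc.pure fun s hs => ⟨onm P (c n), ?_, ?_⟩)⟩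
      · exact app_Cn.2 (Loc.pure fun t _ => ⟨n, feq_refl _ _, feq_refl _ _⟩)
      · exact fmem_congr_left (feq_symm (feq_mono hs he)) (onm_mem hn s)
    · refine fmem_dense ((forces_bex.1 h).bind ?_)
      rintro r _ ⟨n, _, hex⟩
      refine (forces_ex.1 hex).bind ?_
      rintro s _ ⟨y, hy, hxy⟩
      refine (app_Cn.1 hy).bind ?_
      rintro t ht ⟨k, _, hyk⟩
      refine (fmem_onm.1 (fmem_congr_right hyk (fmem_mono ht hxy))).imp ?_
      rintro u _ ⟨x', _, he⟩
      exact fmem_congr_left (feq_symm he) (onm_mem_oall x' u)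
  · -- mutual stationarity
    intro f
    refine (forces_imp nf_basic).2 fun q _ hf F => ?_
    refine (forces_imp nf_basic).2 fun r hr hF => ?_
    refine forces_ex.2 fun r1 hr1 => ?_
    -- decide `f`
    let G : FN P ℕ ℕ := FN.of (fun s n m => s ≤ q ∧ Fc s (app f (onm P n) (onm P m)))
      (by
        rintro s n m m' ⟨h, h1⟩ ⟨_, h2⟩
        exact onm_inj (func_single (Forces.mono nf_basic h hf) h1 h2))
      (fun s t n m ht h => ⟨ht.trans h.1, Forces.mono nf_basic ht h.2⟩)
    have hG : G.Tot q := by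
      intro n s hs
      obtain ⟨t, ht, y, hy, hy'⟩ := (func_total (Forces.mono nf_basic hs hf)
        (onm_mem_oall n s)).exists
      obtain ⟨u, hu, m, _, hm⟩ := (fmem_onm.1 hy).exists
      exact ⟨u, hu.trans ht, m, Loc.pure fun v hv => ⟨hv.trans (hu.trans (ht.trans hs)),
        app_congr' (feq_refl _ _) (feq_mono hv hm) (Forces.mono nf_basic (hv.trans hu) hy')⟩⟩
    obtain ⟨r2, hr2, f₀, hf₀⟩ := decide_fn hcl (D := ℕ) (by
      rw [mk_nat]
      exact aleph0_le_lv hc l) G (hG.mono (hr1.trans hr))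
    have hf₁ : ∀ n, Fc r2 (app f (onm P n) (onm P (f₀ n))) := fun n =>
      Forces.dense nf_basic ((hf₀ n).imp fun _ _ h => h.2)
    have hr2q : r2 ≤ q := hr2.trans (hr1.trans hr)
    have hfl : ∀ n, f₀ n ≤ l := by
      intro n
      have h1 := (func_dom (Forces.mono nf_basic hr2q hf) (hf₁ n)).2
      exact Nat.lt_succ_iff.1 (onm_mem_iff.1 h1)
    obtain ⟨r3, hr3, N, hN1, hN2⟩ := hM f₀ hfl ℕ (opF hF) r2 fun j =>
      (opF_tot hF j).mono (hr2.trans hr1)
    have hr3r : r3 ≤ r := hr3.trans (hr2.trans hr1)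
    refine ⟨r3, hr3.trans hr2, setN P N, ?_, fc_closed hF hN1, ?_⟩
    · refine (forces_ball nf_basic).2 fun z s _ hz => ?_
      refine fmem_dense ((fmem_setN.1 hz).imp ?_)
      rintro t _ ⟨x, _, he⟩
      exact fmem_congr_left (feq_symm he) (onm_mem_oall x t)
    · refine (forces_ball nf_basic).2 fun n' s hs hn' => ?_
      refine (forces_imp nf_basic).2 fun t ht hlt m' => ?_
      refine (forces_imp nf_basic).2 fun u hu hfm K => ?_
      refine (forces_imp nf_basic).2 fun v hv hK M => ?_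
      refine (forces_imp nf_basic).2 fun w hw hM' => ?_
      have hws : w ≤ s := hw.trans (hv.trans (hu.trans ht))
      refine Forces.dense nf_basic (((fmem_oall.1 hn').mono hws).imp ?_)
      rintro a ha ⟨n, hn⟩
      have h1 : fmem (onm P l) (onm P n) a :=
        fmem_congr_right hn (fmem_mono (ha.trans (hw.trans (hv.trans hu))) hlt)
      have h2 : l < n := onm_mem_iff.1 h1
      have h3 : feq m' (onm P (f₀ n)) a := by
        refine func_single (Forces.mono nf_basic (ha.trans (hws.trans (hs.trans (hr3.trans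
          hr2q)))) hf) (app_congr' hn (feq_refl _ _) (Forces.mono nf_basic
          (ha.trans (hw.trans hv)) hfm)) ?_
        exact Forces.mono nf_basic (ha.trans (hws.trans (hs.trans hr3))) (hf₁ n)
      have h4 : feq K (onm P (c n)) a := app_Cn_of hn (Forces.mono nf_basic (ha.trans hw) hK)
      have h5 : feq M (onm P (c (f₀ n))) a := app_Cn_of h3 (Forces.mono nf_basic ha hM')
      obtain ⟨σ, hσ, hσN, hσc⟩ := hN2 n h2
      obtain ⟨α, hα, hfc⟩ := fc_sup hc hcl hb (hfl n) h2 σ hσ hσN hσc a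
      refine forces_bex.2 (Loc.pure fun b hb => ⟨onm P α, ?_, ?_⟩)
      · exact fmem_congr_right (feq_symm (feq_mono hb h4)) (onm_mem hα b)
      · exact (fc_uni (cv (and (isSupOf 0 1 2) (isCof 0 3)) 4) 4
          (l := [onm P α, setN P N, onm P (c n)]) (l' := [onm P α, setN P N, K])
          (.cons (feq_refl _ _) (.cons (feq_refl _ _) (.cons (feq_symm (feq_mono hb h4)) .nil)))
          (feq_symm (feq_mono hb h5)) le_rfl).1 (Forces.mono nf_basic hb hfc)

end

section

variable {P : Type} [Preorder P] [Nonempty P] {Ω : Type} [LinearOrder Ω] [WellFoundedLT Ω]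
  {c : ℕ → Ω} {l : ℕ}

theorem holds_isNum (k : ℕ) : Holds (extE P) (isNum k (π (onm P k))) := by
  induction k with
  | zero =>
    exact (los (lk_env1 (cv (isEmpty 0) 1) (onm P (0 : ℕ)))).2 (T_of_forces fun p => by
      intro y q _ hy
      obtain ⟨r, _, n, hn, _⟩ := (fmem_onm.1 hy).exists
      exact absurd hn (Nat.not_lt_zero n))
  | succ k ih =>
    have h1 : Holds (extE P) (isSuc (π (onm P (k + 1))) (π (onm P k))) :=
      (los (lk_env2 (cv (isSuc 0 1) 2) (onm P (k + 1)) (onm P k))).2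
        (T_of_forces fun p => isSuc_onm p)
    exact fun h => h (π (onm P k)) ⟨ih, h1⟩

/-- From the poset to the model. -/
theorem holds_mutStat (hc : Cards c l) (hP : Pkg P c l) (hM : MutSt P c l) :
    Holds (extE P) (mutStat l : Fml (Ext P)) := by
  have h1 : Holds (extE P) (mutStatAt (π (onm P l)) (π (onm P (l + 1)))) :=
    (los (lk_env2 (cv (mutStatAt 0 1) 2) (onm P l) (onm P (l + 1)))).2
      (T_of_forces fun p => forces_mutStatAt hc hP.cl hP.bdd hP.coll hM p)
  exact fun h => h (π (onm P l)) fun h' => h' (π (onm P (l + 1)))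
    ⟨holds_isNum l, holds_isNum (l + 1), h1⟩

end

end Pool.Agent.MS
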